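import Pool.Agent.Lib.MP_50bb2e_nt.MT.Iface

/-! Module PRD of board mt_modules: divergence gives small products. -/

open NumberField IsDedekindDomain Filter Topology

namespace Pool.Agent.Lib.MP_50bb2e_nt.MT

theorem prd_finite_le {F : Type} [Field F] [NumberField F] (R : ℝ) :
    {v : Pr F | (nm v : ℝ) ≤ R}.Finite := by
  have h1 : {I : Ideal (𝓞 F) | Ideal.absNorm I ≤ ⌊R⌋₊}.Finite := Ideal.finite_setOfPred_absNorm_le _
  have h2 : Set.InjOn (fun v : Pr F => v.asIdeal) {v : Pr F | (nm v : ℝ) ≤ R} := by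
    intro a _ b _ h
    exact HeightOneSpectrum.ext h
  refine Set.Finite.of_finite_image (h1.subset ?_) h2
  rintro I ⟨v, hv, rfl⟩
  exact Nat.le_floor hv

theorem prd : PrdS := by
  classical
  intro F _ _ Q hQ B hB R e he
  set f : Pr F → ℝ := fun v => (1 : ℝ) / (nm v : ℝ) with hf
  set Q' : Set (Pr F) := {v | v ∈ Q ∧ v ∉ B ∧ R < (nm v : ℝ)} with hQ'
  have h1 : ¬ Summable (Q.indicator f) := by
    rw [← summable_subtype_iff_indicator]
    exact hQ
  have h2 : ¬ Summable (Q'.indicator f) := by
    intro h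
    apply h1
    refine (summable_congr_cofinite ?_).1 h
    have hfin : (B ∪ {v : Pr F | (nm v : ℝ) ≤ R}).Finite := hB.union (prd_finite_le R)
    · filter_upwards [hfin.compl_mem_cofinite] with v hv
      simp only [Set.mem_compl_iff, Set.mem_union, Set.mem_ofPred_eq, not_or, not_le] at hv
      by_cases hq : v ∈ Q
      · have : v ∈ Q' := ⟨hq, hv.1, hv.2⟩
        simp [Set.indicator_of_mem, hq, this]
      · have : v ∉ Q' := fun h => hq h.1
        simp [Set.indicator_of_notMem, hq, this]
  have hf0 : ∀ v, 0 ≤ Q'.indicator f v := fun v => Set.indicator_nonneg (fun w _ => by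
    simp only [hf]; positivity) v
  have h3 : ∃ s : Finset (Pr F), -Real.log e < ∑ v ∈ s, Q'.indicator f v := by
    by_contra hcon
    push Not at hcon
    exact h2 (summable_of_sum_le hf0 hcon)
  obtain ⟨s, hs⟩ := h3
  refine ⟨s.filter (· ∈ Q'), ?_, ?_⟩
  · intro v hv
    exact (Finset.mem_filter.1 hv).2
  · have h4 : ∑ v ∈ s, Q'.indicator f v = ∑ v ∈ s.filter (· ∈ Q'), f v := by
      rw [Finset.sum_filter]
      apply Finset.sum_congr rfl
      intro v _
      rw [Set.indicator_apply]
    have h5 : ∏ v ∈ s.filter (· ∈ Q'), (1 - 1 / (nm v : ℝ)) ≤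
        ∏ v ∈ s.filter (· ∈ Q'), Real.exp (-(f v)) := by
      apply Finset.prod_le_prod
      · intro v _
        rw [sub_nonneg]
        rcases Nat.eq_zero_or_pos (nm v) with h | h
        · rw [h]; simp
        · have h' : (1 : ℝ) ≤ (nm v : ℝ) := by exact_mod_cast h
          rw [div_le_one (by linarith)]
          exact h'
      · intro v _
        have := Real.add_one_le_exp (-(f v))
        simp only [hf] at this ⊢
        linarith
    refine h5.trans_lt ?_
    rw [← Real.exp_sum, Finset.sum_neg_distrib, ← h4]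
    calc Real.exp (-∑ v ∈ s, Q'.indicator f v) < Real.exp (Real.log e) :=
          Real.exp_lt_exp.mpr (by linarith)
      _ = e := Real.exp_log he

end Pool.Agent.Lib.MP_50bb2e_nt.MT
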